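import Mathlib
import Pool.Agent.Helper79.CV.Enc

/-!
MP_8ee768_co, project TH-Y': relabelling of encoded families.

* `pmM l m`: image of the mask `m` under the permutation given by the list `l` of its values
  (`valL σ`); `permOf l h` is the permutation of a list with `okPerm l = true`.
* `rkM n k m`: the place of the mask `m` in `L n k`.
* `gather P N`: bit `i` is bit `P[i]` of `N`; `enc_mapF_gather`.
* `encL n k ms`: the code of a list of masks; `decL (L n k) N`: the list of the masks of the
  family with code `N`; `relab n k l N`: the code of the image (cost: number of members).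
-/

set_option autoImplicit false

namespace Pool.Agent.Helper33.CV

open Finset
open Pool.Agent.Helper89.CV (OddCover ofMask)
open Pool.Agent.Helper97.CV
open Pool.Agent.Helper79.CV

/-- image of a mask under the map `i ↦ l[i]` -/
def pmM : List ℕ → ℕ → ℕ
  | [], _ => 0
  | a :: l, m => bif Nat.beq (m % 2) 1 then Nat.lor (2 ^ a) (pmM l (m / 2)) else pmM l (m / 2)

theorem testBit_pmM (l : List ℕ) (m j : ℕ) :
    (pmM l m).testBit j = true ↔ ∃ i, l[i]? = some j ∧ m.testBit i = true := by
  induction l generalizing m with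
  | nil =>
    unfold pmM
    rw [Nat.zero_testBit]
    simp
  | cons a l ih =>
    have h0 : (∃ i, (a :: l)[i]? = some j ∧ m.testBit i = true) ↔
        (a = j ∧ m.testBit 0 = true) ∨ ∃ i, l[i]? = some j ∧ (m / 2).testBit i = true := by
      constructor
      · rintro ⟨i, h1, h2⟩
        cases i with
        | zero =>
          rw [List.getElem?_cons_zero, Option.some.injEq] at h1
          exact Or.inl ⟨h1, h2⟩
        | succ i =>
          rw [List.getElem?_cons_succ] at h1
          rw [Nat.testBit_succ] at h2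
          exact Or.inr ⟨i, h1, h2⟩
      · rintro (⟨h1, h2⟩ | ⟨i, h1, h2⟩)
        · exact ⟨0, by rw [List.getElem?_cons_zero, h1], h2⟩
        · exact ⟨i + 1, by rw [List.getElem?_cons_succ]; exact h1, by
            rw [Nat.testBit_succ]; exact h2⟩
    rw [h0, ← ih]
    have e0 : pmM (a :: l) m =
        bif Nat.beq (m % 2) 1 then Nat.lor (2 ^ a) (pmM l (m / 2)) else pmM l (m / 2) := rfl
    rw [e0]
    have hb : Nat.beq (m % 2) 1 = m.testBit 0 := by
      rw [Nat.testBit_zero]
      rcases Nat.mod_two_eq_zero_or_one m with h | h <;> rw [h] <;> rfl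
    rw [hb]
    by_cases h : m.testBit 0 = true
    · rw [h, cond_true]
      have e : Nat.lor (2 ^ a) (pmM l (m / 2)) = 2 ^ a ||| pmM l (m / 2) := rfl
      rw [e, Nat.testBit_or, Bool.or_eq_true, Nat.testBit_two_pow, decide_eq_true_eq]
      simp
    · rw [Bool.not_eq_true] at h
      rw [h, cond_false]
      simp

/-- the list of the values of a permutation -/
def valL (σ : Equiv.Perm (Fin 13)) : List ℕ := List.ofFn fun i => (σ i).val

theorem ofMask_pmM (σ : Equiv.Perm (Fin 13)) (m : ℕ) :
    ofMask (pmM (valL σ) m) = mapS σ (ofMask m) := by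
  ext j
  rw [mem_ofMask, testBit_pmM, mem_mapS', mem_ofMask]
  unfold valL
  constructor
  · rintro ⟨i, h1, h2⟩
    rw [List.getElem?_ofFn] at h1
    split_ifs at h1 with hi
    · rw [Option.some.injEq] at h1
      have h3 : σ ⟨i, hi⟩ = j := Fin.ext h1
      rw [← h3, Equiv.symm_apply_apply]
      exact h2
  · intro h
    refine ⟨(σ.symm j).val, ?_, h⟩
    rw [List.getElem?_ofFn, dif_pos (σ.symm j).isLt]
    congr 1
    rw [Fin.eta, Equiv.apply_symm_apply]

theorem pmM_lt {l : List ℕ} {n : ℕ} (hl : ∀ a ∈ l, a < n) (m : ℕ) : pmM l m < 2 ^ n := by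
  refine Nat.lt_pow_two_of_testBit _ fun j hj => ?_
  by_contra h
  rw [Bool.not_eq_false, testBit_pmM] at h
  obtain ⟨i, h1, -⟩ := h
  have := hl j (List.mem_of_getElem? h1)
  omega

theorem mk_mapS (σ : Equiv.Perm (Fin 13)) (s : Finset (Fin 13)) :
    mk (mapS σ s) = pmM (valL σ) (mk s) := by
  refine ofMask_injOn (mk_lt _) (pmM_lt ?_ _) ?_
  · intro a ha
    unfold valL at ha
    rw [List.mem_ofFn] at ha
    obtain ⟨i, rfl⟩ := ha
    exact (σ i).isLt
  · rw [ofMask_mk, ofMask_pmM, ofMask_mk]

/-- the place of a mask in `L n k` -/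
def rkM : ℕ → ℕ → ℕ → ℕ
  | _, 0, _ => 0
  | 0, _ + 1, _ => 0
  | n + 1, k + 1, m =>
    bif Nat.blt m (2 ^ n) then rkM n (k + 1) m else Nat.choose n (k + 1) + rkM n k (m - 2 ^ n)

theorem rkM_zero (n m : ℕ) : rkM n 0 m = 0 := by
  cases n <;> rfl

theorem getElem?_L_rkM {n k m : ℕ} (h : m ∈ L n k) : (L n k)[rkM n k m]? = some m := by
  induction n generalizing k m with
  | zero =>
    cases k with
    | zero =>
      rw [L_zero, List.mem_singleton] at h
      rw [h]
      rfl
    | succ k => exact absurd h List.not_mem_nil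
  | succ n ih =>
    cases k with
    | zero =>
      rw [L_zero, List.mem_singleton] at h
      rw [h]
      rfl
    | succ k =>
      have e : rkM (n + 1) (k + 1) m = bif Nat.blt m (2 ^ n) then rkM n (k + 1) m else
          Nat.choose n (k + 1) + rkM n k (m - 2 ^ n) := rfl
      rw [e, L_succ]
      rw [L_succ, List.mem_append, List.mem_map] at h
      rcases h with h | ⟨a, ha, rfl⟩
      · have h1 := lt_of_mem_L h
        have h2 : Nat.blt m (2 ^ n) = true := by
          rw [Nat.blt_eq]
          exact h1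
        rw [h2, cond_true, List.getElem?_append_left, ih h]
        have h3 := ih h
        by_contra h4
        rw [List.getElem?_eq_none (not_lt.1 h4)] at h3
        exact absurd h3 (by simp)
      · have h1 := lt_of_mem_L ha
        have h2 : Nat.blt (a + 2 ^ n) (2 ^ n) = false := by
          rw [Bool.eq_false_iff, Ne, Nat.blt_eq]
          omega
        rw [h2, cond_false, Nat.add_sub_cancel, List.getElem?_append_right
          (by rw [length_L]; omega), length_L, Nat.add_sub_cancel_left, List.getElem?_map, ih ha]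
        rfl

theorem rkM_lt {n k m : ℕ} (h : m ∈ L n k) : rkM n k m < n.choose k := by
  have h1 := getElem?_L_rkM h
  by_contra h2
  rw [List.getElem?_eq_none (by rw [length_L]; omega)] at h1
  exact absurd h1 (by simp)

theorem rkM_getElem {n k i : ℕ} (h : i < (L n k).length) : rkM n k (L n k)[i] = i := by
  have h1 := getElem?_L_rkM (List.getElem_mem h)
  rw [List.getElem?_eq_some_iff] at h1
  obtain ⟨h2, h3⟩ := h1
  exact (nodup_L n k).getElem_inj_iff.1 h3

/-- bit `i` of the result is bit `P[i]` of `N` -/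
def gather : List ℕ → ℕ → ℕ
  | [], _ => 0
  | p :: P, N => Nat.add (Nat.shiftRight N p % 2) (2 * gather P N)

theorem testBit_gather (P : List ℕ) (N i : ℕ) :
    (gather P N).testBit i = true ↔ ∃ p, P[i]? = some p ∧ N.testBit p = true := by
  induction P generalizing i with
  | nil =>
    unfold gather
    rw [Nat.zero_testBit]
    simp
  | cons p P ih =>
    have e : gather (p :: P) N = (N >>> p) % 2 + 2 * gather P N := rfl
    rw [e]
    have hb : N.testBit p = true ↔ (N >>> p) % 2 = 1 := by
      rw [← Nat.add_zero p, ← Nat.testBit_shiftRight, Nat.testBit_zero, decide_eq_true_eq,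
        Nat.add_zero]
    cases i with
    | zero =>
      rw [Nat.testBit_zero, decide_eq_true_eq, Nat.add_mul_mod_self_left, Nat.mod_mod,
        List.getElem?_cons_zero]
      simp only [Option.some.injEq, exists_eq_left']
      rw [hb]
    | succ i =>
      rw [Nat.testBit_succ, List.getElem?_cons_succ, ← ih]
      have h1 : ((N >>> p) % 2 + 2 * gather P N) / 2 = gather P N := by omega
      rw [h1]

/-! ## codes -/

theorem rkM_mk {n k : ℕ} (hn : n ≤ 13) {s : Finset (Fin 13)} (h : Sub n k s) :
    rkM n k (mk s) = rk n k s := by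
  have h1 := getElem?_L_rkM (h.mem_L hn)
  rw [List.getElem?_eq_some_iff] at h1
  obtain ⟨h2, h3⟩ := h1
  unfold rk
  rw [← h3]
  conv_lhs => rw [h3]
  exact ((nodup_L n k).idxOf_getElem _ h2).symm

/-- `σ` keeps `{0, .., n-1}` -/
def Keeps (n : ℕ) (σ : Equiv.Perm (Fin 13)) : Prop := ∀ a : Fin 13, a.val < n → (σ a).val < n

theorem Keeps.symm {n : ℕ} {σ : Equiv.Perm (Fin 13)} (h : Keeps n σ) : Keeps n σ.symm := by
  classical
  intro a ha
  have h1 : (univ.filter fun a : Fin 13 => a.val < n).image σ ⊆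
      univ.filter fun a : Fin 13 => a.val < n := by
    intro b hb
    rw [mem_image] at hb
    obtain ⟨c, hc, rfl⟩ := hb
    rw [mem_filter] at hc ⊢
    exact ⟨mem_univ _, h c hc.2⟩
  have h2 := eq_of_subset_of_card_le h1 (by rw [card_image_of_injective _ σ.injective])
  have h3 : a ∈ univ.filter fun a : Fin 13 => a.val < n := by
    rw [mem_filter]
    exact ⟨mem_univ _, ha⟩
  rw [← h2, mem_image] at h3
  obtain ⟨c, hc, rfl⟩ := h3
  rw [Equiv.symm_apply_apply]
  exact (mem_filter.1 hc).2

theorem keeps_thirteen (σ : Equiv.Perm (Fin 13)) : Keeps 13 σ := fun a _ => (σ a).isLt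

theorem Keeps.sub {n k : ℕ} {σ : Equiv.Perm (Fin 13)} (hσ : Keeps n σ) {s : Finset (Fin 13)}
    (h : Sub n k s) : Sub n k (mapS σ s) := by
  refine ⟨?_, by rw [card_mapS]; exact h.2⟩
  rw [mk_lt_iff]
  intro a ha
  rw [mem_mapS'] at ha
  have h1 := hσ _ (mk_lt_iff.1 h.1 _ ha)
  rwa [Equiv.apply_symm_apply] at h1

theorem Keeps.sub_iff {n k : ℕ} {σ : Equiv.Perm (Fin 13)} (hσ : Keeps n σ)
    {s : Finset (Fin 13)} : Sub n k (mapS σ s) ↔ Sub n k s := by
  refine ⟨fun h => ?_, hσ.sub⟩
  have h1 := hσ.symm.sub h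
  rwa [mapS_symm_mapS] at h1

/-- **relabelling, one bit** -/
theorem testBit_enc_mapF {n k : ℕ} (hn : n ≤ 13) {σ : Equiv.Perm (Fin 13)} (hσ : Keeps n σ)
    (D : Finset (Finset (Fin 13))) {s : Finset (Fin 13)} (h : Sub n k s) :
    (enc n k (mapF σ D)).testBit (rk n k (mapS σ s)) = (enc n k D).testBit (rk n k s) := by
  rw [testBit_enc_rk hn _ (hσ.sub h), testBit_enc_rk hn _ h, decide_eq_decide]
  exact mem_mapF

/-- the same with masks -/
theorem testBit_enc_mapF_mask {n k : ℕ} (hn : n ≤ 13) {σ : Equiv.Perm (Fin 13)}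
    (hσ : Keeps n σ) (D : Finset (Finset (Fin 13))) {m : ℕ} (h : m ∈ L n k) :
    (enc n k (mapF σ D)).testBit (rkM n k (pmM (valL σ) m)) =
      (enc n k D).testBit (rkM n k m) := by
  have h1 := (mem_L hn).1 h
  have hm : mk (ofMask m) = m :=
    mk_ofMask (lt_of_lt_of_le h1.1 (Nat.pow_le_pow_right (by norm_num) hn))
  have hs : Sub n k (ofMask m) := ⟨by rw [hm]; exact h1.1, h1.2⟩
  have h2 := testBit_enc_mapF hn hσ D hs
  rw [← rkM_mk hn hs, ← rkM_mk hn (hσ.sub hs), mk_mapS, hm] at h2
  exact h2

/-- the index list of the relabelling by the permutation whose inverse is `l` -/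
def PL (n k : ℕ) (l : List ℕ) : List ℕ := (L n k).map fun m => rkM n k (pmM l m)

/-- **relabelling by an index list** -/
theorem enc_mapF_gather {n k : ℕ} (hn : n ≤ 13) {σ : Equiv.Perm (Fin 13)} (hσ : Keeps n σ)
    (D : Finset (Finset (Fin 13))) :
    enc n k (mapF σ D) = gather (PL n k (valL σ.symm)) (enc n k D) := by
  refine Nat.eq_of_testBit_eq fun i => ?_
  rw [Bool.eq_iff_iff, testBit_gather]
  unfold PL
  by_cases h : i < (L n k).length
  · have hmem := List.getElem_mem h
    have h1 := testBit_enc_mapF_mask hn hσ D (m := pmM (valL σ.symm) (L n k)[i]) (by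
      have h2 := (mem_L hn).1 hmem
      rw [mem_L hn, ofMask_pmM]
      have hm : mk (ofMask (L n k)[i]) = (L n k)[i] :=
        mk_ofMask (lt_of_lt_of_le h2.1 (Nat.pow_le_pow_right (by norm_num) hn))
      have hs : Sub n k (ofMask (L n k)[i]) := ⟨by rw [hm]; exact h2.1, h2.2⟩
      have h3 := hσ.symm.sub hs
      refine ⟨?_, h3.2⟩
      have h4 := h3.1
      rw [mk_mapS, hm] at h4
      exact h4)
    have h5 : pmM (valL σ) (pmM (valL σ.symm) (L n k)[i]) = (L n k)[i] := by
      have h2 := (mem_L hn).1 hmem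
      have hm : mk (ofMask (L n k)[i]) = (L n k)[i] :=
        mk_ofMask (lt_of_lt_of_le h2.1 (Nat.pow_le_pow_right (by norm_num) hn))
      have h6 := mk_mapS σ (mapS σ.symm (ofMask (L n k)[i]))
      rw [mapS_mapS_symm, hm, mk_mapS, hm] at h6
      exact h6.symm
    rw [h5, rkM_getElem h] at h1
    rw [h1]
    simp only [List.getElem?_map, List.getElem?_eq_getElem h, Option.map_some, Option.some.injEq,
      exists_eq_left']
  · rw [testBit_enc_ge _ (by omega)]
    simp only [List.getElem?_map, List.getElem?_eq_none (not_lt.1 h), Option.map_none,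
      reduceCtorEq, false_and, exists_false, Bool.false_eq_true]

/-! ## lists of masks -/

/-- the code of a list of masks -/
def encL (n k : ℕ) : List ℕ → ℕ
  | [] => 0
  | m :: ms => Nat.lor (2 ^ rkM n k m) (encL n k ms)

theorem testBit_encL {n k : ℕ} (ms : List ℕ) (i : ℕ) :
    (encL n k ms).testBit i = true ↔ ∃ m ∈ ms, rkM n k m = i := by
  induction ms with
  | nil =>
    unfold encL
    rw [Nat.zero_testBit]
    simp
  | cons m ms ih =>
    have e : encL n k (m :: ms) = 2 ^ rkM n k m ||| encL n k ms := rfl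
    rw [e, Nat.testBit_or, Bool.or_eq_true, Nat.testBit_two_pow, decide_eq_true_eq, ih]
    simp

theorem rkM_injOn {n k a b : ℕ} (ha : a ∈ L n k) (hb : b ∈ L n k)
    (h : rkM n k a = rkM n k b) : a = b := by
  have h1 := getElem?_L_rkM ha
  rw [h, getElem?_L_rkM hb, Option.some.injEq] at h1
  exact h1.symm

/-- the family of a list of masks -/
def famL (ms : List ℕ) : Finset (Finset (Fin 13)) := (ms.map ofMask).toFinset

theorem mem_famL {ms : List ℕ} {s : Finset (Fin 13)} :
    s ∈ famL ms ↔ ∃ m ∈ ms, ofMask m = s := by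
  unfold famL
  rw [List.mem_toFinset, List.mem_map]

theorem encL_eq {n k : ℕ} (hn : n ≤ 13) {ms : List ℕ} (h : ∀ m ∈ ms, m ∈ L n k) :
    encL n k ms = enc n k (famL ms) := by
  have hlt : ∀ m ∈ L n k, m < 2 ^ 13 := fun m hm =>
    lt_of_lt_of_le (lt_of_mem_L hm) (Nat.pow_le_pow_right (by norm_num) hn)
  refine Nat.eq_of_testBit_eq fun i => ?_
  rw [Bool.eq_iff_iff, testBit_encL]
  by_cases hi : i < (L n k).length
  · rw [testBit_enc _ hi, decide_eq_true_eq, mem_famL]
    constructor
    · rintro ⟨m, hm, h1⟩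
      refine ⟨m, hm, ?_⟩
      have h2 : m = (L n k)[i] := rkM_injOn (h m hm) (List.getElem_mem hi) (by
        rw [h1, rkM_getElem hi])
      rw [h2]
    · rintro ⟨m, hm, h1⟩
      refine ⟨m, hm, ?_⟩
      have h2 : m = (L n k)[i] :=
        ofMask_injOn (hlt m (h m hm)) (hlt _ (List.getElem_mem hi)) h1
      rw [h2, rkM_getElem hi]
  · rw [testBit_enc_ge _ (by omega)]
    constructor
    · rintro ⟨m, hm, h1⟩
      have := rkM_lt (h m hm)
      rw [length_L] at hi
      omega
    · intro h1
      exact absurd h1 Bool.false_ne_true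

/-- the masks of the family with code `N` -/
def decL : List ℕ → ℕ → List ℕ
  | [], _ => []
  | m :: ms, N => bif Nat.beq (N % 2) 1 then m :: decL ms (N / 2) else decL ms (N / 2)

theorem mem_decL {ms : List ℕ} {N m : ℕ} :
    m ∈ decL ms N ↔ ∃ i, ms[i]? = some m ∧ N.testBit i = true := by
  induction ms generalizing N with
  | nil => simp [decL]
  | cons a ms ih =>
    have h0 : (∃ i, (a :: ms)[i]? = some m ∧ N.testBit i = true) ↔
        (a = m ∧ N.testBit 0 = true) ∨ ∃ i, ms[i]? = some m ∧ (N / 2).testBit i = true := by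
      constructor
      · rintro ⟨i, h1, h2⟩
        cases i with
        | zero =>
          rw [List.getElem?_cons_zero, Option.some.injEq] at h1
          exact Or.inl ⟨h1, h2⟩
        | succ i =>
          rw [List.getElem?_cons_succ] at h1
          rw [Nat.testBit_succ] at h2
          exact Or.inr ⟨i, h1, h2⟩
      · rintro (⟨h1, h2⟩ | ⟨i, h1, h2⟩)
        · exact ⟨0, by rw [List.getElem?_cons_zero, h1], h2⟩
        · exact ⟨i + 1, by rw [List.getElem?_cons_succ]; exact h1, by
            rw [Nat.testBit_succ]; exact h2⟩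
    rw [h0, ← ih]
    have e0 : decL (a :: ms) N =
        bif Nat.beq (N % 2) 1 then a :: decL ms (N / 2) else decL ms (N / 2) := rfl
    rw [e0]
    have hb : Nat.beq (N % 2) 1 = N.testBit 0 := by
      rw [Nat.testBit_zero]
      rcases Nat.mod_two_eq_zero_or_one N with h | h <;> rw [h] <;> rfl
    rw [hb]
    by_cases h : N.testBit 0 = true
    · rw [h, cond_true, List.mem_cons]
      constructor
      · rintro (h1 | h1)
        · exact Or.inl ⟨h1.symm, rfl⟩
        · exact Or.inr h1
      · rintro (⟨h1, -⟩ | h1)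
        · exact Or.inl h1.symm
        · exact Or.inr h1
    · rw [Bool.not_eq_true] at h
      rw [h, cond_false]
      simp

theorem famL_decL (n k N : ℕ) : famL (decL (L n k) N) = fam n k N := by
  ext s
  rw [mem_famL, mem_fam]
  constructor
  · rintro ⟨m, hm, h1⟩
    obtain ⟨i, h2, h3⟩ := mem_decL.1 hm
    rw [List.getElem?_eq_some_iff] at h2
    obtain ⟨h4, h5⟩ := h2
    exact ⟨i, h4, h3, by rw [h5]; exact h1⟩
  · rintro ⟨i, h1, h2, h3⟩
    exact ⟨(L n k)[i], mem_decL.2 ⟨i, List.getElem?_eq_getElem h1, h2⟩, h3⟩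

theorem mapF_famL (σ : Equiv.Perm (Fin 13)) (ms : List ℕ) :
    mapF σ (famL ms) = famL (ms.map (pmM (valL σ))) := by
  ext s
  unfold mapF
  rw [mem_image, mem_famL]
  constructor
  · rintro ⟨t, ht, rfl⟩
    obtain ⟨m, hm, rfl⟩ := mem_famL.1 ht
    exact ⟨_, List.mem_map_of_mem hm, ofMask_pmM σ m⟩
  · rintro ⟨m', hm', rfl⟩
    rw [List.mem_map] at hm'
    obtain ⟨m, hm, rfl⟩ := hm'
    exact ⟨ofMask m, mem_famL.2 ⟨m, hm, rfl⟩, (ofMask_pmM σ m).symm⟩

theorem pmM_mem_L {n k : ℕ} (hn : n ≤ 13) {σ : Equiv.Perm (Fin 13)} (hσ : Keeps n σ) {m : ℕ}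
    (h : m ∈ L n k) : pmM (valL σ) m ∈ L n k := by
  have h2 := (mem_L hn).1 h
  have hm : mk (ofMask m) = m :=
    mk_ofMask (lt_of_lt_of_le h2.1 (Nat.pow_le_pow_right (by norm_num) hn))
  have hs : Sub n k (ofMask m) := ⟨by rw [hm]; exact h2.1, h2.2⟩
  have h3 := (hσ.sub hs).mem_L hn
  rwa [mk_mapS, hm] at h3

/-- the code of the image of the family with code `N` -/
def relab (n k : ℕ) (l : List ℕ) (N : ℕ) : ℕ := encL n k ((decL (L n k) N).map (pmM l))

/-- **relabelling through the list of members** -/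
theorem relab_eq {n k : ℕ} (hn : n ≤ 13) {σ : Equiv.Perm (Fin 13)} (hσ : Keeps n σ) (N : ℕ) :
    relab n k (valL σ) N = enc n k (mapF σ (fam n k N)) := by
  unfold relab
  rw [encL_eq hn, ← mapF_famL, famL_decL]
  intro m hm
  rw [List.mem_map] at hm
  obtain ⟨m', hm', rfl⟩ := hm
  obtain ⟨i, h1, -⟩ := mem_decL.1 hm'
  exact pmM_mem_L hn hσ (List.mem_of_getElem? h1)

theorem enc_mapF_relab {n k : ℕ} (hn : n ≤ 13) {σ : Equiv.Perm (Fin 13)} (hσ : Keeps n σ)
    {D : Finset (Finset (Fin 13))} (hD : ∀ s ∈ D, Sub n k s) :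
    enc n k (mapF σ D) = relab n k (valL σ) (enc n k D) := by
  rw [relab_eq hn hσ, fam_enc hn hD]

theorem fam_relab {n k : ℕ} (hn : n ≤ 13) {σ : Equiv.Perm (Fin 13)} (hσ : Keeps n σ) (N : ℕ) :
    fam n k (relab n k (valL σ) N) = mapF σ (fam n k N) := by
  rw [relab_eq hn hσ, fam_enc hn]
  intro s hs
  rw [mem_mapF'] at hs
  have h1 := sub_of_mem_fam hn hs
  exact hσ.symm.sub_iff.1 h1

/-! ## permutations as data -/

/-- all bits `l[i]`, to test that a list is a permutation of `0, .., 12` -/
def orL : List ℕ → ℕ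
  | [] => 0
  | a :: l => Nat.lor (2 ^ a) (orL l)

theorem testBit_orL (l : List ℕ) (j : ℕ) : (orL l).testBit j = true ↔ j ∈ l := by
  induction l with
  | nil =>
    unfold orL
    rw [Nat.zero_testBit]
    simp
  | cons a l ih =>
    have e : orL (a :: l) = 2 ^ a ||| orL l := rfl
    rw [e, Nat.testBit_or, Bool.or_eq_true, Nat.testBit_two_pow, decide_eq_true_eq, ih,
      List.mem_cons]
    constructor
    · rintro (h | h)
      · exact Or.inl h.symm
      · exact Or.inr h
    · rintro (h | h)
      · exact Or.inl h.symm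
      · exact Or.inr h

/-- test for the list of the values of a permutation of the 13 points -/
def okPerm (l : List ℕ) : Bool := Nat.beq l.length 13 && Nat.beq (orL l) 8191

theorem exists_perm {l : List ℕ} (h : okPerm l = true) :
    ∃ σ : Equiv.Perm (Fin 13), valL σ = l := by
  unfold okPerm at h
  rw [Bool.and_eq_true, Nat.beq_eq, Nat.beq_eq] at h
  obtain ⟨h1, h2⟩ := h
  have hmem : ∀ j, j ∈ l ↔ j < 13 := by
    intro j
    rw [← testBit_orL, h2]
    have e : (8191 : ℕ) = 2 ^ 13 - 1 := by norm_num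
    rw [e, Nat.testBit_two_pow_sub_one, decide_eq_true_eq]
  have hlt : ∀ i : Fin 13, l[i.val]'(by rw [h1]; exact i.isLt) < 13 := fun i =>
    (hmem _).1 (List.getElem_mem _)
  let f : Fin 13 → Fin 13 := fun i => ⟨l[i.val]'(by rw [h1]; exact i.isLt), hlt i⟩
  have hsurj : Function.Surjective f := by
    intro j
    obtain ⟨i, hi, h3⟩ := List.mem_iff_getElem.1 ((hmem j.val).2 j.isLt)
    exact ⟨⟨i, by omega⟩, Fin.ext h3⟩
  have hbij : Function.Bijective f := (Finite.injective_iff_surjective.2 hsurj).bijective_of_finite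
  refine ⟨Equiv.ofBijective f hbij, ?_⟩
  unfold valL
  apply List.ext_getElem
  · rw [List.length_ofFn, h1]
  · intro i hi hi'
    rw [List.getElem_ofFn]
    rfl

/-- the permutation of a list -/
noncomputable def permOf (l : List ℕ) (h : okPerm l = true) : Equiv.Perm (Fin 13) :=
  (exists_perm h).choose

theorem valL_permOf {l : List ℕ} (h : okPerm l = true) : valL (permOf l h) = l :=
  (exists_perm h).choose_spec

theorem permOf_apply {l : List ℕ} (h : okPerm l = true) (i : Fin 13) :
    l[i.val]? = some (permOf l h i).val := by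
  have h1 := valL_permOf h
  conv_lhs => rw [← h1]
  unfold valL
  rw [List.getElem?_ofFn, dif_pos i.isLt]

/-- the permutation keeps `{0, .., n-1}` if the values at `n, .., 12` are at least `n` or, as here,
the first `n` values are less than `n` -/
theorem keeps_permOf {l : List ℕ} (h : okPerm l = true) {n : ℕ}
    (hl : (l.take n).all (fun a => Nat.blt a n) = true) : Keeps n (permOf l h) := by
  intro a ha
  have h1 := permOf_apply h a
  rw [List.all_eq_true] at hl
  have h2 : (permOf l h a).val ∈ l.take n := by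
    rw [List.mem_iff_getElem?]
    refine ⟨a.val, ?_⟩
    rw [List.getElem?_take_of_lt ha]
    exact h1
  have h3 := hl _ h2
  rwa [Nat.blt_eq] at h3

end Pool.Agent.Helper33.CV
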