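import Pool.Agent.Helper91.TY.Swap
import Pool.Agent.Helper82.TY.PopEnc

/-!
MP_8ee768_co, project TH-Y': families of subsets of `{0, .., n-1}` in the cube format.

`cub n D` has bit `m` (`m < 2 ^ n`) iff the set with mask `m` belongs to `D`; `cam n N` is the
family with cube code `N`. Links, deletions, layers and the superset parity transform are a few
shifts and masks.
-/

set_option autoImplicit false

namespace Pool.Agent.Helper33.CV

open Finset
open Pool.Agent.Helper89.CV (OddCover ofMask)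
open Pool.Agent.Helper97.CV Pool.Agent.Helper79.CV
open Pool.Agent.Helper63.SIMD Pool.Agent.Helper91.TY

/-- cube code of a family -/
def cub (n : ℕ) (D : Finset (Finset (Fin 13))) : ℕ :=
  Nat.ofBits (fun m : Fin (2 ^ n) => decide (ofMask m.val ∈ D))

/-- the family with cube code `N` -/
def cam (n N : ℕ) : Finset (Finset (Fin 13)) :=
  univ.filter fun s => mk s < 2 ^ n ∧ N.testBit (mk s) = true

theorem testBit_cub {n m : ℕ} (D : Finset (Finset (Fin 13))) (h : m < 2 ^ n) :
    (cub n D).testBit m = decide (ofMask m ∈ D) := by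
  unfold cub
  rw [Nat.testBit_ofBits_lt _ _ h]

theorem testBit_cub_ge {n m : ℕ} (D : Finset (Finset (Fin 13))) (h : 2 ^ n ≤ m) :
    (cub n D).testBit m = false := by
  unfold cub
  exact Nat.testBit_ofBits_ge _ _ h

theorem testBit_cub_mk {n : ℕ} (D : Finset (Finset (Fin 13))) {s : Finset (Fin 13)}
    (h : mk s < 2 ^ n) : (cub n D).testBit (mk s) = decide (s ∈ D) := by
  rw [testBit_cub D h, ofMask_mk]

theorem cub_lt (n : ℕ) (D : Finset (Finset (Fin 13))) : cub n D < 2 ^ 2 ^ n :=
  Nat.ofBits_lt_two_pow _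

theorem mem_cam {n N : ℕ} {s : Finset (Fin 13)} :
    s ∈ cam n N ↔ mk s < 2 ^ n ∧ N.testBit (mk s) = true := by
  unfold cam
  simp only [mem_filter, mem_univ, true_and]

theorem cam_cub {n : ℕ} {D : Finset (Finset (Fin 13))} (hD : ∀ s ∈ D, mk s < 2 ^ n) :
    cam n (cub n D) = D := by
  ext s
  rw [mem_cam]
  constructor
  · rintro ⟨h1, h2⟩
    rw [testBit_cub_mk D h1, decide_eq_true_eq] at h2
    exact h2
  · intro h
    refine ⟨hD s h, ?_⟩
    rw [testBit_cub_mk D (hD s h), decide_eq_true_eq]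
    exact h

theorem cub_cam {n N : ℕ} (hn : n ≤ 13) (hN : N < 2 ^ 2 ^ n) : cub n (cam n N) = N := by
  refine Nat.eq_of_testBit_eq fun m => ?_
  by_cases h : m < 2 ^ n
  · have h13 : m < 2 ^ 13 := lt_of_lt_of_le h (Nat.pow_le_pow_right (by norm_num) hn)
    rw [testBit_cub _ h, Bool.eq_iff_iff, decide_eq_true_eq, mem_cam, mk_ofMask h13]
    exact ⟨fun h1 => h1.2, fun h1 => ⟨h, h1⟩⟩
  · rw [testBit_cub_ge _ (by omega), Nat.testBit_eq_false_of_lt]
    exact lt_of_lt_of_le hN (Nat.pow_le_pow_right (by norm_num) (by omega))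

theorem mk_lt_of_mem_cam {n N : ℕ} {s : Finset (Fin 13)} (h : s ∈ cam n N) : mk s < 2 ^ n :=
  (mem_cam.1 h).1

theorem cub_injective {n : ℕ} {D E : Finset (Finset (Fin 13))}
    (hD : ∀ s ∈ D, mk s < 2 ^ n) (hE : ∀ s ∈ E, mk s < 2 ^ n) (h : cub n D = cub n E) :
    D = E := by
  rw [← cam_cub hD, ← cam_cub hE, h]

/-! ## set operations -/

theorem cub_inter (n : ℕ) (D E : Finset (Finset (Fin 13))) :
    cub n (D ∩ E) = cub n D &&& cub n E := by
  refine Nat.eq_of_testBit_eq fun m => ?_
  rw [Nat.testBit_and]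
  by_cases h : m < 2 ^ n
  · rw [testBit_cub _ h, testBit_cub _ h, testBit_cub _ h, ← Bool.decide_and]
    congr 1
    rw [mem_inter]
  · rw [testBit_cub_ge _ (by omega), testBit_cub_ge _ (by omega)]
    rfl

theorem cub_union (n : ℕ) (D E : Finset (Finset (Fin 13))) :
    cub n (D ∪ E) = cub n D ||| cub n E := by
  refine Nat.eq_of_testBit_eq fun m => ?_
  rw [Nat.testBit_or]
  by_cases h : m < 2 ^ n
  · rw [testBit_cub _ h, testBit_cub _ h, testBit_cub _ h, ← Bool.decide_or]
    congr 1
    rw [mem_union]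
  · rw [testBit_cub_ge _ (by omega), testBit_cub_ge _ (by omega), testBit_cub_ge _ (by omega)]
    rfl

theorem cub_symmDiff (n : ℕ) (D E : Finset (Finset (Fin 13))) :
    cub n (symmDiff D E) = cub n D ^^^ cub n E := by
  refine Nat.eq_of_testBit_eq fun m => ?_
  rw [Nat.testBit_xor]
  by_cases h : m < 2 ^ n
  · rw [testBit_cub _ h, testBit_cub _ h, testBit_cub _ h, Bool.eq_iff_iff, decide_eq_true_eq,
      mem_symmDiff]
    by_cases h1 : ofMask m ∈ D <;> by_cases h2 : ofMask m ∈ E <;> simp [h1, h2]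
  · rw [testBit_cub_ge _ (by omega), testBit_cub_ge _ (by omega), testBit_cub_ge _ (by omega)]
    rfl

theorem cub_sdiff (n : ℕ) (D E : Finset (Finset (Fin 13))) :
    cub n (D \ E) = cub n D ^^^ (cub n D &&& cub n E) := by
  rw [← cub_inter, ← cub_symmDiff]
  congr 1
  ext s
  rw [mem_symmDiff, mem_inter, mem_sdiff]
  tauto

theorem cub_empty (n : ℕ) : cub n ∅ = 0 := by
  refine Nat.eq_of_testBit_eq fun m => ?_
  rw [Nat.zero_testBit]
  by_cases h : m < 2 ^ n
  · rw [testBit_cub _ h]
    exact decide_eq_false (notMem_empty _)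
  · exact testBit_cub_ge _ (by omega)

/-- codes are monotone in the family -/
theorem cub_subset {n : ℕ} {D E : Finset (Finset (Fin 13))} (h : D ⊆ E) :
    cub n D &&& cub n E = cub n D := by
  rw [← cub_inter, inter_eq_left.2 h]

/-! ## one point -/

/-- bit `m < 2 ^ n` is set iff `m` has bit `p` zero -/
def lowM (n p : ℕ) : ℕ := (2 ^ 2 ^ p - 1) * rep (2 ^ (p + 1)) (2 ^ (n - p - 1))

theorem testBit_lowM {n p : ℕ} (hp : p < n) (m : ℕ) :
    (lowM n p).testBit m = (decide (m < 2 ^ n) && !m.testBit p) := by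
  unfold lowM
  have hM : 2 ^ 2 ^ p - 1 < 2 ^ 2 ^ (p + 1) := by
    have h1 : 2 ^ 2 ^ p ≤ 2 ^ 2 ^ (p + 1) :=
      Nat.pow_le_pow_right (by norm_num) (Nat.pow_le_pow_right (by norm_num) (by omega))
    have h2 : 0 < 2 ^ 2 ^ p := Nat.two_pow_pos _
    omega
  rw [testBit_mul_rep (Nat.two_pow_pos _) hM, ← pow_add, show p + 1 + (n - p - 1) = n by omega]
  congr 1
  rw [Nat.testBit_two_pow_sub_one]
  have h3 : m.testBit p = decide (2 ^ p ≤ m % 2 ^ (p + 1)) := by
    have h4 : m.testBit p = (m % 2 ^ (p + 1)).testBit p := by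
      rw [Nat.testBit_mod_two_pow, decide_eq_true (show p < p + 1 by omega), Bool.true_and]
    rw [h4]
    by_cases h5 : 2 ^ p ≤ m % 2 ^ (p + 1)
    · rw [decide_eq_true h5]
      have h6 : m % 2 ^ (p + 1) < 2 ^ (p + 1) := Nat.mod_lt _ (Nat.two_pow_pos _)
      exact Nat.testBit_of_two_pow_le_and_two_pow_add_one_gt h5 h6
    · rw [decide_eq_false h5]
      exact Nat.testBit_eq_false_of_lt (by omega)
  rw [h3, ← decide_not]
  congr 1
  rw [not_le]

theorem add_two_pow_eq_lor {m p : ℕ} (h : m.testBit p = false) : m + 2 ^ p = m ||| 2 ^ p := by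
  have hr : m % 2 ^ p < 2 ^ p := Nat.mod_lt _ (Nat.two_pow_pos p)
  have hm : m = 2 ^ p * (m / 2 ^ p) + m % 2 ^ p := (Nat.div_add_mod m (2 ^ p)).symm
  have hq : m / 2 ^ p % 2 = 0 := by
    rw [Nat.testBit_eq_decide_div_mod_eq, decide_eq_false_iff_not] at h
    omega
  obtain ⟨q, hq'⟩ : ∃ q, m / 2 ^ p = 2 * q := ⟨m / 2 ^ p / 2, by omega⟩
  generalize m % 2 ^ p = r at hr hm
  rw [hq'] at hm
  have h1 : m + 2 ^ p = 2 ^ p * (2 * q + 1) + r := by
    rw [hm]
    ring
  rw [h1]
  refine Nat.eq_of_testBit_eq fun i => ?_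
  rw [Nat.testBit_or, hm, Nat.testBit_two_pow_mul_add _ hr, Nat.testBit_two_pow_mul_add _ hr,
    Nat.testBit_two_pow]
  by_cases hi : i < p
  · rw [if_pos hi, if_pos hi, decide_eq_false (by omega), Bool.or_false]
  · rw [if_neg hi, if_neg hi]
    by_cases hi2 : p = i
    · subst hi2
      rw [Nat.sub_self, decide_eq_true rfl, Bool.or_true, Nat.testBit_zero, decide_eq_true]
      omega
    · obtain ⟨j, hj⟩ : ∃ j, i - p = j + 1 := ⟨i - p - 1, by omega⟩
      rw [decide_eq_false hi2, Bool.or_false, hj, Nat.testBit_succ, Nat.testBit_succ]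
      congr 1
      omega

/-- adding a point that is not there -/
theorem ofMask_add_of_not {m : ℕ} (p : Fin 13) (h : m.testBit p.val = false) :
    ofMask (m + 2 ^ p.val) = insert p (ofMask m) := by
  rw [add_two_pow_eq_lor h, ofMask_lor]
  ext i
  rw [mem_union, mem_insert, mem_ofMask, mem_ofMask, Nat.testBit_two_pow, decide_eq_true_eq,
    Fin.ext_iff]
  tauto

theorem add_two_pow_lt {n m p : ℕ} (hp : p < n) (hm : m < 2 ^ n) (h : m.testBit p = false) :
    m + 2 ^ p < 2 ^ n := by
  rw [add_two_pow_eq_lor h]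
  exact Nat.or_lt_two_pow hm (Nat.pow_lt_pow_right (by norm_num) hp)

/-- the link of a point is a shift and a mask -/
theorem cub_link {n : ℕ} (D : Finset (Finset (Fin 13))) (p : Fin 13) (hp : p.val < n) :
    cub n (link D p) = (cub n D >>> 2 ^ p.val) &&& lowM n p.val := by
  refine Nat.eq_of_testBit_eq fun m => ?_
  rw [Nat.testBit_and, Nat.testBit_shiftRight, testBit_lowM hp]
  by_cases h : m < 2 ^ n
  · rw [testBit_cub _ h, decide_eq_true h, Bool.true_and]
    by_cases hb : m.testBit p.val = true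
    · rw [hb, Bool.not_true, Bool.and_false, decide_eq_false_iff_not, mem_link, mem_ofMask]
      exact fun h1 => h1.1 hb
    · rw [Bool.not_eq_true] at hb
      rw [hb, Bool.not_false, Bool.and_true, Nat.add_comm,
        testBit_cub _ (add_two_pow_lt hp h hb), ofMask_add_of_not p hb]
      congr 1
      rw [mem_link, eq_iff_iff, mem_ofMask, hb]
      exact ⟨fun h1 => h1.2, fun h1 => ⟨Bool.false_ne_true, h1⟩⟩
  · rw [testBit_cub_ge _ (by omega), decide_eq_false h, Bool.false_and, Bool.and_false]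

/-- the members avoiding a point -/
theorem cub_del {n : ℕ} (D : Finset (Finset (Fin 13))) (p : Fin 13) (hp : p.val < n) :
    cub n (D.filter fun s => p ∉ s) = cub n D &&& lowM n p.val := by
  refine Nat.eq_of_testBit_eq fun m => ?_
  rw [Nat.testBit_and, testBit_lowM hp]
  by_cases h : m < 2 ^ n
  · rw [testBit_cub _ h, testBit_cub _ h, decide_eq_true h, Bool.true_and, Bool.eq_iff_iff,
      decide_eq_true_eq, mem_filter, mem_ofMask, Bool.and_eq_true, decide_eq_true_eq,
      Bool.not_eq_true', Bool.not_eq_true]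
  · rw [testBit_cub_ge _ (by omega), decide_eq_false h, Bool.false_and, Bool.and_false]

/-- the link at the last point is a plain shift -/
theorem cub_shift (n : Fin 13) (D : Finset (Finset (Fin 13))) :
    cub (n.val + 1) D >>> 2 ^ n.val = cub n.val (link D n) := by
  refine Nat.eq_of_testBit_eq fun m => ?_
  rw [Nat.testBit_shiftRight]
  by_cases h : m < 2 ^ n.val
  · have h1 : 2 ^ n.val + m < 2 ^ (n.val + 1) := by
      rw [pow_succ]
      omega
    rw [testBit_cub _ h1, testBit_cub _ h, Nat.add_comm, ofMask_add n h]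
    congr 1
    rw [mem_link, eq_iff_iff]
    exact ⟨fun h3 => ⟨notMem_ofMask n h, h3⟩, fun h3 => h3.2⟩
  · rw [testBit_cub_ge _ (by rw [pow_succ]; omega), testBit_cub_ge _ (by omega)]

/-- the members inside the first `n` points -/
theorem cub_mod {n n' : ℕ} (hn : n ≤ n') (D : Finset (Finset (Fin 13))) :
    cub n' D % 2 ^ 2 ^ n = cub n D := by
  refine Nat.eq_of_testBit_eq fun m => ?_
  rw [Nat.testBit_mod_two_pow]
  by_cases h : m < 2 ^ n
  · have h1 : m < 2 ^ n' := lt_of_lt_of_le h (Nat.pow_le_pow_right (by norm_num) hn)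
    rw [testBit_cub _ h1, testBit_cub _ h, decide_eq_true h, Bool.true_and]
  · rw [decide_eq_false h, Bool.false_and, testBit_cub_ge _ (by omega)]

/-! ## layers -/

/-- code of the family of all `k`-subsets of `{0, .., n-1}` -/
def layM : ℕ → ℕ → ℕ
  | _, 0 => 1
  | 0, _ + 1 => 0
  | n + 1, k + 1 => layM n (k + 1) + 2 ^ 2 ^ n * layM n k

theorem testBit_layM (n k m : ℕ) : (layM n k).testBit m = decide (m ∈ L n k) := by
  have hlt : ∀ n k, (∀ m, (layM n k).testBit m = decide (m ∈ L n k)) → layM n k < 2 ^ 2 ^ n := by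
    intro n k h
    refine Nat.lt_pow_two_of_testBit _ fun i hi => ?_
    rw [h, decide_eq_false_iff_not]
    intro h1
    have := lt_of_mem_L h1
    omega
  induction n generalizing k m with
  | zero =>
    cases k with
    | zero =>
      show (1 : ℕ).testBit m = decide (m ∈ L 0 0)
      rw [← pow_zero 2, Nat.testBit_two_pow, Bool.eq_iff_iff, decide_eq_true_eq,
        decide_eq_true_eq, L_zero, List.mem_singleton]
      exact eq_comm
    | succ k =>
      show (0 : ℕ).testBit m = _
      rw [Nat.zero_testBit]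
      exact (decide_eq_false (List.not_mem_nil)).symm
  | succ n ih =>
    cases k with
    | zero =>
      show (1 : ℕ).testBit m = decide (m ∈ L (n + 1) 0)
      rw [← pow_zero 2, Nat.testBit_two_pow, Bool.eq_iff_iff, decide_eq_true_eq,
        decide_eq_true_eq, L_zero, List.mem_singleton]
      exact eq_comm
    | succ k =>
      show (layM n (k + 1) + 2 ^ 2 ^ n * layM n k).testBit m = _
      rw [Nat.add_comm, Nat.testBit_two_pow_mul_add _ (hlt _ _ (fun m => ih (k + 1) m)), L_succ]
      by_cases h : m < 2 ^ n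
      · rw [if_pos h, ih, Bool.eq_iff_iff, decide_eq_true_eq, decide_eq_true_eq, List.mem_append,
          List.mem_map]
        constructor
        · exact Or.inl
        · rintro (h1 | ⟨a, -, h1⟩)
          · exact h1
          · omega
      · rw [if_neg h, ih, Bool.eq_iff_iff, decide_eq_true_eq, decide_eq_true_eq, List.mem_append,
          List.mem_map]
        constructor
        · intro h1
          exact Or.inr ⟨m - 2 ^ n, h1, by omega⟩
        · rintro (h1 | ⟨a, h1, h2⟩)
          · exact absurd (lt_of_mem_L h1) h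
          · rw [show m - 2 ^ n = a by omega]
            exact h1

theorem layM_lt (n k : ℕ) : layM n k < 2 ^ 2 ^ n := by
  refine Nat.lt_pow_two_of_testBit _ fun i hi => ?_
  rw [testBit_layM, decide_eq_false_iff_not]
  intro h1
  have := lt_of_mem_L h1
  omega

theorem testBit_layM_mk {n k : ℕ} (hn : n ≤ 13) {s : Finset (Fin 13)} (h : mk s < 2 ^ n) :
    (layM n k).testBit (mk s) = decide (s.card = k) := by
  rw [testBit_layM, Bool.eq_iff_iff, decide_eq_true_eq, decide_eq_true_eq, ← sub_iff hn]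
  exact ⟨fun h1 => h1.2, fun h1 => ⟨h, h1⟩⟩

theorem cub_filter_card {n : ℕ} (hn : n ≤ 13) (k : ℕ) (D : Finset (Finset (Fin 13))) :
    cub n (D.filter fun s => s.card = k) = cub n D &&& layM n k := by
  refine Nat.eq_of_testBit_eq fun m => ?_
  rw [Nat.testBit_and, testBit_layM]
  by_cases h : m < 2 ^ n
  · rw [testBit_cub _ h, testBit_cub _ h, Bool.eq_iff_iff, decide_eq_true_eq, mem_filter,
      Bool.and_eq_true, decide_eq_true_eq, decide_eq_true_eq, mem_L hn]
    exact ⟨fun h1 => ⟨h1.1, h, h1.2⟩, fun h1 => ⟨h1.1, h1.2.2⟩⟩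
  · rw [testBit_cub_ge _ (by omega), testBit_cub_ge _ (by omega), Bool.false_and]

/-- all members are `k`-subsets of `{0, .., n-1}` -/
theorem cub_land_layM {n k : ℕ} (hn : n ≤ 13) {D : Finset (Finset (Fin 13))}
    (hD : ∀ s ∈ D, Sub n k s) : cub n D &&& layM n k = cub n D := by
  rw [← cub_filter_card hn, filter_true_of_mem fun s hs => (hD s hs).2]

/-! ## population count -/

theorem card_eq_popc_cub {n : ℕ} (hn : n ≤ 11) {D : Finset (Finset (Fin 13))}
    (hD : ∀ s ∈ D, mk s < 2 ^ n) : D.card = Pool.Agent.Helper82.TY.popc (cub n D) := by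
  have hp : 2 ^ n ≤ 2048 := by
    have h1 : 2 ^ n ≤ 2 ^ 11 := Nat.pow_le_pow_right (by norm_num) hn
    norm_num at h1
    exact h1
  have h13 : 2 ^ n ≤ 2 ^ 13 := Nat.pow_le_pow_right (by norm_num) (by omega)
  unfold Pool.Agent.Helper82.TY.popc
  refine card_bij (fun s _ => mk s) ?_ ?_ ?_
  · intro s hs
    have h := hD s hs
    rw [mem_filter, mem_range, testBit_cub_mk D h, decide_eq_true_eq]
    exact ⟨by omega, hs⟩
  · intro s _ t _ hst
    exact mk_injective hst
  · intro i hi
    rw [mem_filter] at hi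
    have hlt : i < 2 ^ n := by
      by_contra hcon
      rw [testBit_cub_ge D (by omega)] at hi
      exact Bool.false_ne_true hi.2
    refine ⟨ofMask i, ?_, mk_ofMask (by omega)⟩
    have h1 := testBit_cub D hlt
    rw [hi.2] at h1
    exact of_decide_eq_true h1.symm

theorem card_eq_pop_cub {n : ℕ} (hn : n ≤ 11) {D : Finset (Finset (Fin 13))}
    (hD : ∀ s ∈ D, mk s < 2 ^ n) : D.card = Pool.Agent.Helper82.TY.pop (cub n D) := by
  rw [card_eq_popc_cub hn hD, Pool.Agent.Helper82.TY.pop_eq]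
  refine lt_of_lt_of_le (cub_lt n D) (Nat.pow_le_pow_right (by norm_num) ?_)
  have h1 : 2 ^ n ≤ 2 ^ 11 := Nat.pow_le_pow_right (by norm_num) hn
  norm_num at h1
  exact h1

/-! ## cube and colex codes -/

theorem testBit_enc_eq_cub {n k i : ℕ} (D : Finset (Finset (Fin 13))) (h : i < (L n k).length) :
    (enc n k D).testBit i = (cub n D).testBit ((L n k)[i]) := by
  rw [testBit_enc D h, testBit_cub D (lt_of_mem_L (List.getElem_mem h))]

/-- colex code from the cube code -/
theorem enc_eq_bits (n k : ℕ) (D : Finset (Finset (Fin 13))) :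
    enc n k D = Pool.Agent.Helper82.TY.bits (cub n D).testBit (L n k) := by
  refine Nat.eq_of_testBit_eq fun i => ?_
  rw [Pool.Agent.Helper82.TY.testBit_bits]
  by_cases h : i < (L n k).length
  · rw [dif_pos h, testBit_enc_eq_cub D h]
  · rw [dif_neg h, testBit_enc_ge D (by omega)]

end Pool.Agent.Helper33.CV
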