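import Pool.Agent.Helper33.CV.Cube

/-!
MP_8ee768_co, project TH-Y': the superset parity transform in the cube format.

`zeta n N` (`n` steps `N xor ((N >>> 2 ^ p) land lowM n p)`) has bit `mk s` equal to the parity of
the number of members of the family containing `s`.
-/

set_option autoImplicit false

namespace Pool.Agent.Helper33.CV

open Finset
open Pool.Agent.Helper89.CV (OddCover ofMask)
open Pool.Agent.Helper97.CV Pool.Agent.Helper79.CV

/-- one step on families -/
def zstep (p : Fin 13) (D : Finset (Finset (Fin 13))) : Finset (Finset (Fin 13)) :=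
  symmDiff D (link D p)

theorem mem_zstep {p : Fin 13} {D : Finset (Finset (Fin 13))} {s : Finset (Fin 13)} :
    s ∈ zstep p D ↔ ¬ (s ∈ D ↔ (p ∉ s ∧ insert p s ∈ D)) := by
  unfold zstep
  rw [mem_symmDiff, mem_link]
  tauto

/-- number of members containing `s` whose other points lie in `P` -/
def cntIn (P : Finset (Fin 13)) (D : Finset (Finset (Fin 13))) (s : Finset (Fin 13)) : ℕ :=
  (D.filter fun b => s ⊆ b ∧ b \ s ⊆ P).card

theorem cntIn_empty (D : Finset (Finset (Fin 13))) (s : Finset (Fin 13)) :
    cntIn ∅ D s = if s ∈ D then 1 else 0 := by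
  unfold cntIn
  have h : (D.filter fun b => s ⊆ b ∧ b \ s ⊆ ∅) = if s ∈ D then {s} else ∅ := by
    ext b
    rw [mem_filter, subset_empty, sdiff_eq_empty_iff_subset]
    split_ifs with h1
    · rw [mem_singleton]
      constructor
      · rintro ⟨-, h2, h3⟩
        exact Subset.antisymm h3 h2
      · rintro rfl
        exact ⟨h1, Subset.refl _, Subset.refl _⟩
    · constructor
      · rintro ⟨h2, h3, h4⟩
        exact absurd (Subset.antisymm h3 h4 ▸ h2) h1
      · intro h2
        exact absurd h2 (notMem_empty b)
  rw [h]
  split_ifs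
  · exact card_singleton s
  · exact card_empty

theorem cntIn_insert {P : Finset (Fin 13)} {p : Fin 13} (hp : p ∉ P)
    (D : Finset (Finset (Fin 13))) (s : Finset (Fin 13)) :
    cntIn (insert p P) D s = cntIn P D s + if p ∈ s then 0 else cntIn P D (insert p s) := by
  unfold cntIn
  by_cases hs : p ∈ s
  · rw [if_pos hs, Nat.add_zero]
    congr 1
    refine filter_congr fun b _ => ?_
    refine and_congr_right fun _ => ?_
    constructor
    · intro h a ha
      rcases mem_insert.1 (h ha) with h1 | h1
      · rw [h1] at ha
        exact absurd hs (mem_sdiff.1 ha).2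
      · exact h1
    · exact fun h => h.trans (subset_insert p P)
  · rw [if_neg hs, ← card_union_of_disjoint]
    · congr 1
      ext b
      rw [mem_union, mem_filter, mem_filter, mem_filter]
      constructor
      · rintro ⟨h1, h2, h3⟩
        by_cases hb : p ∈ b
        · right
          refine ⟨h1, insert_subset hb h2, ?_⟩
          intro a ha
          rw [mem_sdiff, mem_insert, not_or] at ha
          rcases mem_insert.1 (h3 (mem_sdiff.2 ⟨ha.1, ha.2.2⟩)) with h4 | h4
          · exact absurd h4 ha.2.1
          · exact h4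
        · left
          refine ⟨h1, h2, ?_⟩
          intro a ha
          rcases mem_insert.1 (h3 ha) with h4 | h4
          · rw [h4] at ha
            exact absurd (mem_sdiff.1 ha).1 hb
          · exact h4
      · rintro (⟨h1, h2, h3⟩ | ⟨h1, h2, h3⟩)
        · exact ⟨h1, h2, h3.trans (subset_insert p P)⟩
        · refine ⟨h1, (subset_insert p s).trans h2, ?_⟩
          intro a ha
          rw [mem_sdiff] at ha
          by_cases hap : a = p
          · exact mem_insert.2 (Or.inl hap)
          · refine mem_insert_of_mem (h3 (mem_sdiff.2 ⟨ha.1, ?_⟩))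
            rw [mem_insert, not_or]
            exact ⟨hap, ha.2⟩
    · rw [disjoint_left]
      intro b hb hb'
      rw [mem_filter] at hb hb'
      exact hp (hb.2.2 (mem_sdiff.2 ⟨hb'.2.1 (mem_insert_self p s), hs⟩))

/-- the transform on families -/
def zfam (l : List (Fin 13)) (D : Finset (Finset (Fin 13))) : Finset (Finset (Fin 13)) :=
  l.foldl (fun D p => zstep p D) D

theorem mem_zfam {l : List (Fin 13)} (hl : l.Nodup) (D : Finset (Finset (Fin 13)))
    (s : Finset (Fin 13)) : s ∈ zfam l D ↔ Odd (cntIn l.toFinset D s) := by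
  induction l using List.reverseRecOn generalizing s with
  | nil =>
    show s ∈ D ↔ _
    rw [List.toFinset_nil, cntIn_empty]
    split_ifs with h
    · exact iff_of_true h odd_one
    · exact iff_of_false h (by decide)
  | append_singleton l p ih =>
    have hn := List.nodup_append.1 hl
    have hp : p ∉ l := fun h => hn.2.2 p h p (List.mem_singleton.2 rfl) rfl
    have h1 : zfam (l ++ [p]) D = zstep p (zfam l D) := by
      unfold zfam
      rw [List.foldl_append]
      rfl
    have h2 : (l ++ [p]).toFinset = insert p l.toFinset := by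
      ext a
      rw [List.mem_toFinset, List.mem_append, List.mem_singleton, mem_insert, List.mem_toFinset]
      exact or_comm
    rw [h1, h2, mem_zstep, ih hn.1, ih hn.1,
      cntIn_insert (fun h => hp (List.mem_toFinset.1 h))]
    by_cases hs : p ∈ s
    · rw [if_pos hs, Nat.add_zero]
      simp only [hs, not_true_eq_false, false_and, iff_false, not_not]
    · rw [if_neg hs]
      simp only [hs, not_false_eq_true, true_and]
      rw [Nat.odd_add]
      rcases Nat.even_or_odd (cntIn l.toFinset D s) with h3 | h3 <;>
        rcases Nat.even_or_odd (cntIn l.toFinset D (insert p s)) with h4 | h4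
      · have h5 := Nat.not_odd_iff_even.2 h3
        have h6 := Nat.not_odd_iff_even.2 h4
        tauto
      · have h5 := Nat.not_odd_iff_even.2 h3
        have h6 := Nat.not_even_iff_odd.2 h4
        tauto
      · have h5 := Nat.not_odd_iff_even.2 h4
        tauto
      · have h6 := Nat.not_even_iff_odd.2 h4
        tauto

/-- one step on codes -/
def zst (n p N : ℕ) : ℕ := Nat.xor N (Nat.land (Nat.shiftRight N (2 ^ p)) (lowM n p))

/-- superset parities of a cube code -/
def zeta (n : ℕ) : ℕ → ℕ → ℕ
  | 0, N => N
  | k + 1, N => zst n k (zeta n k N)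

theorem cub_zstep {n : ℕ} (D : Finset (Finset (Fin 13))) (p : Fin 13) (hp : p.val < n) :
    cub n (zstep p D) = zst n p.val (cub n D) := by
  unfold zstep
  rw [cub_symmDiff, cub_link D p hp]
  rfl

/-- the first `k` points -/
def fstL (k : ℕ) : List (Fin 13) := (List.finRange 13).take k

theorem fstL_succ {k : ℕ} (hk : k < 13) : fstL (k + 1) = fstL k ++ [⟨k, hk⟩] := by
  unfold fstL
  rw [List.take_add_one, List.getElem?_eq_getElem (by rw [List.length_finRange]; exact hk),
    List.getElem_finRange]
  rfl

theorem mem_fstL {k : ℕ} {a : Fin 13} : a ∈ fstL k ↔ a.val < k := by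
  unfold fstL
  rw [List.mem_take_iff_getElem]
  constructor
  · rintro ⟨i, hi, rfl⟩
    rw [List.getElem_finRange]
    simp only [Fin.cast_mk]
    exact lt_of_lt_of_le hi (min_le_left _ _)
  · intro h
    refine ⟨a.val, ?_, ?_⟩
    · rw [List.length_finRange]
      exact lt_min h a.isLt
    · rw [List.getElem_finRange]
      rfl

theorem nodup_fstL (k : ℕ) : (fstL k).Nodup := (List.nodup_finRange 13).sublist (List.take_sublist _ _)

theorem cub_zfam {n k : ℕ} (hk : k ≤ n) (hn : n ≤ 13) (D : Finset (Finset (Fin 13))) :
    cub n (zfam (fstL k) D) = zeta n k (cub n D) := by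
  induction k with
  | zero => rfl
  | succ k ih =>
    have h1 : zfam (fstL (k + 1)) D = zstep ⟨k, by omega⟩ (zfam (fstL k) D) := by
      rw [fstL_succ (by omega)]
      unfold zfam
      rw [List.foldl_append]
      rfl
    rw [h1, cub_zstep _ _ (by simp only; omega), ih (by omega)]
    rfl

/-- **superset parities** -/
theorem testBit_zeta {n : ℕ} (hn : n ≤ 13) {D : Finset (Finset (Fin 13))}
    (hD : ∀ b ∈ D, mk b < 2 ^ n) {s : Finset (Fin 13)} (hs : mk s < 2 ^ n) :
    (zeta n n (cub n D)).testBit (mk s) = decide (Odd (cnt D s)) := by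
  rw [← cub_zfam (le_refl n) hn, testBit_cub_mk _ hs, decide_eq_decide,
    mem_zfam (nodup_fstL n)]
  have h : cntIn (fstL n).toFinset D s = cnt D s := by
    unfold cntIn cnt
    congr 1
    refine filter_congr fun b hb => ?_
    constructor
    · exact fun h => h.1
    · intro h
      refine ⟨h, fun a ha => ?_⟩
      rw [List.mem_toFinset, mem_fstL]
      exact mk_lt_iff.1 (hD b hb) a (mem_sdiff.1 ha).1
  rw [h]

/-- the odd family test in the cube format -/
theorem oddFam_iff_zeta {n k : ℕ} (hn : n ≤ 13) {D : Finset (Finset (Fin 13))}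
    (hD : ∀ b ∈ D, Sub n (k + 1) b) :
    OddFam k (Pool.Agent.Helper82.TY.below n) D ↔
      Nat.land (zeta n n (cub n D)) (layM n k) = layM n k := by
  have hsub : ∀ s : Finset (Fin 13), s ⊆ Pool.Agent.Helper82.TY.below n ∧ s.card = k ↔
      Sub n k s := fun s => Pool.Agent.Helper82.TY.sub_iff_below.symm
  constructor
  · intro h
    refine Nat.eq_of_testBit_eq fun m => ?_
    show (zeta n n (cub n D) &&& layM n k).testBit m = _
    rw [Nat.testBit_and]
    by_cases hm : (layM n k).testBit m = true
    · rw [hm, Bool.and_true]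
      have h1 : m ∈ L n k := by
        rw [testBit_layM, decide_eq_true_eq] at hm
        exact hm
      have h2 := (mem_L hn).1 h1
      have h3 : mk (ofMask m) = m :=
        mk_ofMask (lt_of_lt_of_le h2.1 (Nat.pow_le_pow_right (by norm_num) hn))
      have h4 : Sub n k (ofMask m) := ⟨by rw [h3]; exact h2.1, h2.2⟩
      have h5 := (hsub _).2 h4
      have h6 := testBit_zeta hn (fun b hb => (hD b hb).1) h4.1
      rw [h3] at h6
      rw [h6, decide_eq_true_eq]
      exact h.2 _ h5.1 h5.2
    · rw [Bool.not_eq_true] at hm
      rw [hm, Bool.and_false]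
  · intro h
    refine ⟨fun b hb => Pool.Agent.Helper82.TY.sub_iff_below.1 (hD b hb), fun s hs hk => ?_⟩
    have h1 := (hsub s).1 ⟨hs, hk⟩
    have h2 : (layM n k).testBit (mk s) = true := by
      rw [testBit_layM_mk hn h1.1, decide_eq_true_eq]
      exact hk
    have h3 : (zeta n n (cub n D) &&& layM n k).testBit (mk s) = true := by
      rw [show zeta n n (cub n D) &&& layM n k = layM n k from h]
      exact h2
    rw [Nat.testBit_and, h2, Bool.and_true,
      testBit_zeta hn (fun b hb => (hD b hb).1) h1.1, decide_eq_true_eq] at h3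
    exact h3

end Pool.Agent.Helper33.CV
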